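import Pool.Agent.TH119.Ord.Tensor
import Pool.Agent.W528.Ord.AllEll

/-! Motives whose adjoint motive is a direct summand of a tensor motive: definitions. -/

set_option autoImplicit false

namespace Pool.Agent.TH119.Ord

open Polynomial NumberField IsDedekindDomain Pool.Agent.W528.Ord Pool.Agent.W401.Cheb

/-- Data attached to a motive `R` over the number field `K`, together with a second motive `C` and a tensor
construction `T`. -/
structure AdjointData (K : Type) [Field K] [NumberField K] where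
  /-- the characteristic polynomials of the geometric Frobenius elements on `R` -/
  P : HeightOneSpectrum (𝓞 K) → ℤ[X]
  /-- the Hodge (Hodge-Tate) slopes of `R`, in increasing order, with multiplicity -/
  h : List ℕ
  /-- the characteristic polynomials of the geometric Frobenius elements on `C` -/
  PC : HeightOneSpectrum (𝓞 K) → ℤ[X]
  /-- the Hodge slopes of `C` -/
  hC : List ℕ
  /-- a Tate twist -/
  c₀ : ℤ
  /-- the tensor construction: the direct sum of the `A ^ {⊗ a} ⊗ (A ^ ∨) ^ {⊗ b} (-c)` for all `(a, b, c)`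
  in the list -/
  T : List (ℕ × ℕ × ℤ)

/-- `End(R) ⊕ C(-c₀)` is the tensor motive `T(A)`; here `G v` are the Frobenius polynomials of `A` and `H` are
its Hodge slopes. The places considered are the places of degree one whose residue characteristic is not
in `S`.

* `newton`, `newtonC`: the Newton polygons of `R` and `C` lie on or above their Hodge polygons and have the
  same end points (Katz-Messing, Mazur);
* `frob`: the Frobenius eigenvalues on `R ⊗ R^∨ ⊕ C(-c₀)` are those on `T(A)`;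
* `hodge`: the Hodge slopes of `R ⊗ R^∨ ⊕ C(-c₀)` are those of `T(A)`. -/
structure AdjointData.IsSummand {K : Type} [Field K] [NumberField K] (D : AdjointData K)
    (S : Finset ℕ) (G : HeightOneSpectrum (𝓞 K) → ℤ[X]) (H : Multiset ℕ) : Prop where
  newton : ∀ v, MultSystem.IsDeg1 S v → AboveHodge (Ideal.absNorm v.asIdeal) (D.P v) D.h
  newtonC : ∀ v, MultSystem.IsDeg1 S v → AboveHodge (Ideal.absNorm v.asIdeal) (D.PC v) D.hC
  frob : ∀ v, MultSystem.IsDeg1 S v →
    ((eig (D.P v) ×ˢ eig (D.P v)).map fun x => x.1 * x.2⁻¹) +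
      (eig (D.PC v)).map (fun y => y * (Ideal.absNorm v.asIdeal : Qbar) ^ D.c₀) =
    eigTensor (Ideal.absNorm v.asIdeal : Qbar) (eig (G v)) D.T
  hodge : ((((D.h : Multiset ℕ).map fun a : ℕ => (a : ℤ)) ×ˢ
      ((D.h : Multiset ℕ).map fun a : ℕ => (a : ℤ))).map fun x => x.1 - x.2) +
      (D.hC : Multiset ℕ).map (fun a : ℕ => (a : ℤ) + D.c₀) =
    slopeTensor (H.map fun a : ℕ => (a : ℤ)) D.T

/-- The realisations `R ℓ'` are strictly compatible: at the places of degree one outside `S` the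
characteristic polynomial of the geometric Frobenius element (the inverse of `γ`) is `F v`. -/
def StrictlyCompatible {K₀ : Type} [Field K₀] [NumberField K₀] (S : Finset ℕ) {r : ℕ}
    (R : ∀ (ℓ' : ℕ) [Fact ℓ'.Prime], GK K₀ →* Matrix.GeneralLinearGroup (Fin r) ℚ_[ℓ'])
    (F : HeightOneSpectrum (𝓞 K₀) → ℤ[X]) : Prop :=
  ∀ (ℓ' : ℕ) [Fact ℓ'.Prime] (v₀ : HeightOneSpectrum (𝓞 K₀)), MultSystem.IsDeg1 S v₀ →
    Ideal.absNorm v₀.asIdeal ≠ ℓ' → ∀ γ : GK K₀, IsFrob v₀ γ →
      (R ℓ' γ⁻¹ : Matrix (Fin r) (Fin r) ℚ_[ℓ']).charpoly = (F v₀).map (Int.castRingHom ℚ_[ℓ'])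

/-- For every prime `ℓ'` different from the residue characteristic `p = N v₀` and every embedding `τ`
of the field of algebraic numbers the Newton polygon of `R ℓ'` at `v₀` has the slopes `H`. -/
def Ordinary {K₀ : Type} [Field K₀] [NumberField K₀] {r : ℕ}
    (R : ∀ (ℓ' : ℕ) [Fact ℓ'.Prime], GK K₀ →* Matrix.GeneralLinearGroup (Fin r) ℚ_[ℓ'])
    (H : Multiset ℕ) (v₀ : HeightOneSpectrum (𝓞 K₀)) : Prop :=
  ∃ (p : ℕ) (_ : Fact p.Prime), Ideal.absNorm v₀.asIdeal = p ∧
    ∀ (ℓ' : ℕ) [Fact ℓ'.Prime], p ≠ ℓ' → ∀ γ : GK K₀, IsFrob v₀ γ →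
      ∀ τ : algebraicClosure ℚ (PadicAlgCl ℓ') →+* PadicAlgCl p,
        NewtonTau (R ℓ' γ⁻¹ : Matrix (Fin r) (Fin r) ℚ_[ℓ']) τ H

end Pool.Agent.TH119.Ord
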