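import Pool.Agent.TH119.Ord.Defs
import Pool.Agent.W528.Ord.AllEll

/-! Ordinary primes for motives in tannakian categories: the proof. -/

set_option autoImplicit false

namespace Pool.Agent.TH119.Ord

open Polynomial NumberField IsDedekindDomain Pool.Agent.W528.Ord Pool.Agent.W401.Cheb Filter

theorem newtonSlopes_prod {p : ℕ} [hp : Fact p.Prime] {J : Type} [Fintype J] (P : J → ℤ[X]) (h : J → List ℕ)
    (hP : ∀ j, (P j).Monic) (hN : ∀ j, NewtonSlopes p (P j) (h j : Multiset ℕ)) :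
    NewtonSlopes p (∏ j, P j) (∑ j, (h j : Multiset ℕ)) := by
  classical
  refine ⟨hp, ?_⟩
  rw [Polynomial.map_prod, MotSystem.roots_prod_norm _ _ (fun j _ => ((hP j).map _).ne_zero),
    MotSystem.map_sum_multiset]
  refine Finset.sum_congr rfl fun j _ => ?_
  obtain ⟨_, h1⟩ := hN j
  exact h1

section

variable (K₀ K : Type) [Field K₀] [NumberField K₀] [Field K] [NumberField K] [Algebra K₀ K]
    (ℓ : ℕ) [Fact ℓ.Prime] {ι : Type} [Fintype ι] (A : ι → MotSystem K ℓ) (m : ι → ℕ)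
    (χ : GK K →* (PadicAlgCl ℓ)ˣ) (S : Finset ℕ) (hA : ∀ i, (A i).IsMotive χ S)

include hA in
theorem coeff_zero_ne (G : HeightOneSpectrum (𝓞 K) → ℤ[X]) (v : HeightOneSpectrum (𝓞 K))
    (hv : MultSystem.IsDeg1 S v)
    (hG : (G v).map (Int.castRingHom (AlgebraicClosure K)) = MotSystem.prodPoly A m v) :
    (G v).coeff 0 ≠ 0 := by
  intro h0
  have h1 : (MotSystem.prodPoly A m v).coeff 0 = 0 := by
    rw [← hG, coeff_map, h0, map_zero]
  rw [coeff_zero_eq_eval_zero, MotSystem.prodPoly, eval_prod, Finset.prod_eq_zero_iff] at h1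
  obtain ⟨i, -, h1⟩ := h1
  rw [eval_prod, Finset.prod_eq_zero_iff] at h1
  obtain ⟨σ, -, h1⟩ := h1
  rw [eval_pow] at h1
  have h2 := eq_zero_of_pow_eq_zero h1
  -- the constant coefficient of the Frobenius polynomial is not zero
  have h3 : ((A i).poly v σ).coeff 0 = 0 := by rw [coeff_zero_eq_eval_zero]; exact h2
  rw [MotSystem.poly, coeff_map] at h3
  have h4 : ((A i).P v).coeff 0 = 0 := by
    have hinj : Function.Injective (σ.comp (algebraMap (𝓞 (A i).E) (A i).E)) :=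
      σ.injective.comp (IsFractionRing.injective (𝓞 (A i).E) (A i).E)
    exact hinj (by rw [h3, map_zero])
  obtain ⟨τ⟩ : Nonempty ((A i).E →+* ℂ) := inferInstance
  have h5 := (hA i).isWeil v hv τ 0 (by
    rw [IsRoot, ← coeff_zero_eq_eval_zero, MotSystem.poly, coeff_map, h4, map_zero])
  rw [norm_zero] at h5
  have h6 : (0 : ℝ) < (Ideal.absNorm v.asIdeal : ℝ) ^ (A i).w := by
    have : 0 < Ideal.absNorm v.asIdeal := hv.1.pos
    positivity
  simp at h5
  rw [← h5] at h6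
  exact lt_irrefl _ h6

include hA in
theorem main (G : HeightOneSpectrum (𝓞 K) → ℤ[X])
    (hG : ∀ v, MultSystem.IsDeg1 S v →
      (G v).map (Int.castRingHom (AlgebraicClosure K)) = MotSystem.prodPoly A m v)
    {J : Type} [Fintype J] (D : J → AdjointData K)
    (hD : ∀ j, (D j).IsSummand S G (MotSystem.slopes A m))
    (F : HeightOneSpectrum (𝓞 K₀) → ℤ[X])
    (hF : ∀ (v₀ : HeightOneSpectrum (𝓞 K₀)) (v : HeightOneSpectrum (𝓞 K)),
      v.asIdeal.comap (algebraMap (𝓞 K₀) (𝓞 K)) = v₀.asIdeal → MultSystem.IsDeg1 S v →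
      F v₀ = ∏ j, (D j).P v)
    (hγ : ∃ γ : GK K, ∀ i, (A i).Admissible γ) :
    0 < lowerDensity (OrdinaryPlace S F (∑ j, ((D j).h : Multiset ℕ))) := by
  classical
  have hpos := MotSystem.admProportion_pos A hγ
  have hev := MotSystem.lower_K A m χ S hA G hG (MotSystem.admProportion A / 2) (by positivity)
  have hd : (0 : ℝ) < (Module.finrank ℚ K : ℝ) := by exact_mod_cast Module.finrank_pos
  apply lowerDensity_pos _ (MotSystem.admProportion A / 2 / (Module.finrank ℚ K : ℝ)) (by positivity)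
  filter_upwards [hev] with N hN
  have h1 := dens_under (K₀ := K₀) (fun v : HeightOneSpectrum (𝓞 K) =>
      MultSystem.IsDeg1 S v ∧ NewtonSlopes (Ideal.absNorm v.asIdeal) (G v) (MotSystem.slopes A m))
      (OrdinaryPlace S F (∑ j, ((D j).h : Multiset ℕ))) (fun v hv => hv.1.1) (fun v v₀ hv h0 => by
        have e := under_norm v hv.1.1 v₀ h0
        refine ⟨?_, ?_⟩
        · unfold MultSystem.IsDeg1
          rw [e]
          exact hv.1
        · rw [e, hF v₀ v h0 hv.1]
          obtain ⟨p, hpe⟩ : ∃ p, Ideal.absNorm v.asIdeal = p := ⟨_, rfl⟩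
          have hpp : p.Prime := hpe ▸ hv.1.1
          haveI : Fact p.Prime := ⟨hpp⟩
          rw [hpe]
          refine newtonSlopes_prod _ _ (fun j => ((hD j).newton v hv.1).monic) fun j => ?_
          have h2 := (hD j).newton v hv.1
          have h3 := (hD j).newtonC v hv.1
          have h4 := (hD j).frob v hv.1
          have h5 := hv.2
          rw [hpe] at h2 h3 h4 h5
          exact key _ _ (G v) _ _ _ _ _ h2 h3 (coeff_zero_ne K ℓ A m χ S hA G v hv.1 (hG v hv.1)) h4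
            (hD j).hodge h5) N
  rw [div_le_iff₀ hd, mul_comm]
  have h2 : MotSystem.admProportion A / 2 ≤ MotSystem.admProportion A - MotSystem.admProportion A / 2 := by
    linarith
  exact (h2.trans hN).trans h1

include hA in
theorem main_all (G : HeightOneSpectrum (𝓞 K) → ℤ[X])
    (hG : ∀ v, MultSystem.IsDeg1 S v →
      (G v).map (Int.castRingHom (AlgebraicClosure K)) = MotSystem.prodPoly A m v)
    {J : Type} [Fintype J] (D : J → AdjointData K)
    (hD : ∀ j, (D j).IsSummand S G (MotSystem.slopes A m))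
    {r : ℕ} (R : ∀ (ℓ' : ℕ) [Fact ℓ'.Prime], GK K₀ →* Matrix.GeneralLinearGroup (Fin r) ℚ_[ℓ'])
    (F : HeightOneSpectrum (𝓞 K₀) → ℤ[X]) (hR : StrictlyCompatible S R F)
    (hF : ∀ (v₀ : HeightOneSpectrum (𝓞 K₀)) (v : HeightOneSpectrum (𝓞 K)),
      v.asIdeal.comap (algebraMap (𝓞 K₀) (𝓞 K)) = v₀.asIdeal → MultSystem.IsDeg1 S v →
      F v₀ = ∏ j, (D j).P v)
    (hγ : ∃ γ : GK K, ∀ i, (A i).Admissible γ) :
    0 < lowerDensity (Ordinary R (∑ j, ((D j).h : Multiset ℕ))) := by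
  refine lt_of_lt_of_le (main K₀ K ℓ A m χ S hA G hG D hD F hF hγ) ?_
  apply lowerDensity_mono
  rintro v₀ ⟨hv, hN⟩
  have hN' := hN
  obtain ⟨hp, -⟩ := hN
  refine ⟨Ideal.absNorm v₀.asIdeal, hp, rfl, ?_⟩
  intro ℓ' _ hne γ hγ τ
  exact newtonTau_of _ τ _ (F v₀) (hR ℓ' v₀ hv hne γ hγ) hN'

end

end Pool.Agent.TH119.Ord
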