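import Mathlib

/-! Majorization of slopes: a polygon above another one with the same end points has a smaller sum of
squares of slopes, with equality only if the slopes are the same. -/

set_option autoImplicit false

namespace Pool.Agent.TH119.Ord

open Finset

theorem abel_ge (s h : ℕ → ℝ) (n : ℕ) (hs : ∀ i < n, s i ≤ s (i + 1))
    (hD : ∀ k ≤ n, ∑ i ∈ range k, h i ≤ ∑ i ∈ range k, s i) :
    - (s n * (∑ i ∈ range (n + 1), s i - ∑ i ∈ range (n + 1), h i)) ≤
      ∑ i ∈ range (n + 1), s i * (h i - s i) := by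
  induction n with
  | zero =>
    simp only [zero_add, sum_range_one]
    apply le_of_eq
    ring
  | succ n ih =>
    have h1 := ih (fun i hi => hs i (by omega)) (fun k hk => hD k (by omega))
    have h2 := hs n (by omega)
    have h3 := hD (n + 1) le_rfl
    rw [sum_range_succ (fun i => s i * (h i - s i)) (n + 1), sum_range_succ s (n + 1),
      sum_range_succ h (n + 1)]
    have h4 : 0 ≤ (s (n + 1) - s n) * (∑ i ∈ range (n + 1), s i - ∑ i ∈ range (n + 1), h i) :=
      mul_nonneg (by linarith) (by linarith)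
    nlinarith [h1, h4]

theorem sq_sum_le (n : ℕ) (s h : ℕ → ℝ) (hs : ∀ i, i + 1 < n → s i ≤ s (i + 1))
    (hD : ∀ k ≤ n, ∑ i ∈ range k, h i ≤ ∑ i ∈ range k, s i)
    (hn : ∑ i ∈ range n, s i = ∑ i ∈ range n, h i) :
    ∑ i ∈ range n, (h i - s i) ^ 2 ≤ ∑ i ∈ range n, h i ^ 2 - ∑ i ∈ range n, s i ^ 2 := by
  rcases n with _ | n
  · simp
  · have h1 := abel_ge s h n (fun i hi => hs i (by omega)) (fun k hk => hD k (by omega))
    rw [hn, sub_self, mul_zero, neg_zero] at h1
    have h2 : ∑ i ∈ range (n + 1), h i ^ 2 - ∑ i ∈ range (n + 1), s i ^ 2 =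
        ∑ i ∈ range (n + 1), (h i - s i) ^ 2 + 2 * ∑ i ∈ range (n + 1), s i * (h i - s i) := by
      rw [mul_sum, ← sum_sub_distrib, ← sum_add_distrib]
      refine sum_congr rfl fun i _ => by ring
    rw [h2]
    linarith

theorem list_sum_map_range (l : List ℝ) (f : ℝ → ℝ) :
    (l.map f).sum = ∑ i ∈ range l.length, f (l.getD i 0) := by
  induction l with
  | nil => simp
  | cons a l ih =>
    rw [List.map_cons, List.sum_cons, List.length_cons, sum_range_succ', ih, add_comm]
    simp

theorem list_sum_range (l : List ℝ) :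
    l.sum = ∑ i ∈ range l.length, l.getD i 0 := by
  have := list_sum_map_range l id
  simpa using this

theorem getD_mono (l : List ℝ) (hl : l.Pairwise (· ≤ ·)) (i j : ℕ) (hij : i ≤ j) (hj : j < l.length) :
    l.getD i 0 ≤ l.getD j 0 := by
  rw [List.getD_eq_getElem _ _ (by omega), List.getD_eq_getElem _ _ hj]
  rcases eq_or_lt_of_le hij with rfl | hij
  · exact le_rfl
  · exact List.pairwise_iff_getElem.mp hl i j (by omega) hj hij

theorem partial_le (n : ℕ) (s h : ℕ → ℝ) (hh : ∀ i j, i ≤ j → j < n → h i ≤ h j)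
    (hmin : ∀ t : ℝ, ∑ i ∈ range n, min t (h i) ≤ ∑ i ∈ range n, min t (s i)) (k : ℕ) (hk : k ≤ n) :
    ∑ i ∈ range k, h i ≤ ∑ i ∈ range k, s i := by
  rcases k with _ | k
  · simp
  · have h1 := hmin (h k)
    have h2 : ∑ i ∈ range n, min (h k) (h i) = ∑ i ∈ range (k + 1), h i + ((n - (k + 1) : ℕ) : ℝ) * h k := by
      rw [← sum_range_add_sum_Ico _ hk]
      congr 1
      · refine sum_congr rfl fun i hi => min_eq_right (hh i k ?_ (by omega))
        have := mem_range.mp hi
        omega
      · rw [sum_congr rfl (g := fun _ => h k) (fun i hi => min_eq_left (hh k i (by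
          have := mem_Ico.mp hi; omega) (mem_Ico.mp hi).2)), sum_const, Nat.card_Ico, nsmul_eq_mul]
    have h3 : ∑ i ∈ range n, min (h k) (s i) ≤ ∑ i ∈ range (k + 1), s i + ((n - (k + 1) : ℕ) : ℝ) * h k := by
      rw [← sum_range_add_sum_Ico _ hk]
      refine add_le_add (sum_le_sum fun i _ => min_le_right _ _) ?_
      refine (sum_le_sum (g := fun _ => h k) fun i _ => min_le_left _ _).trans (le_of_eq ?_)
      rw [sum_const, Nat.card_Ico, nsmul_eq_mul]
    linarith

/-- the sum of the squares -/
noncomputable def sq (M : Multiset ℝ) : ℝ := (M.map fun x => x ^ 2).sum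

theorem maj (M N : Multiset ℝ) (hc : Multiset.card M = Multiset.card N)
    (hmin : ∀ t : ℝ, (N.map fun x => min t x).sum ≤ (M.map fun x => min t x).sum)
    (hsum : M.sum = N.sum) : sq M ≤ sq N ∧ (sq N ≤ sq M → M = N) := by
  set l := M.sort (· ≤ ·) with hl
  set m := N.sort (· ≤ ·) with hm
  have hlM : (l : Multiset ℝ) = M := Multiset.sort_eq _ _
  have hmN : (m : Multiset ℝ) = N := Multiset.sort_eq _ _
  have hlp : l.Pairwise (· ≤ ·) := Multiset.pairwise_sort _ _
  have hmp : m.Pairwise (· ≤ ·) := Multiset.pairwise_sort _ _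
  have hlen : l.length = m.length := by
    rw [← Multiset.coe_card, ← Multiset.coe_card, hlM, hmN, hc]
  have hf : ∀ f : ℝ → ℝ, (M.map f).sum = ∑ i ∈ range m.length, f (l.getD i 0) := by
    intro f
    rw [← hlM, Multiset.map_coe, Multiset.sum_coe, list_sum_map_range, hlen]
  have hg : ∀ f : ℝ → ℝ, (N.map f).sum = ∑ i ∈ range m.length, f (m.getD i 0) := by
    intro f
    rw [← hmN, Multiset.map_coe, Multiset.sum_coe, list_sum_map_range]
  have hid : ∀ P : Multiset ℝ, P.sum = (P.map fun x => x).sum := fun P => by rw [Multiset.map_id']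
  have hD := partial_le m.length (fun i => l.getD i 0) (fun i => m.getD i 0)
    (fun i j hij hj => getD_mono m hmp i j hij hj) (fun t => by
      have := hmin t
      rw [hf, hg] at this
      exact this)
  have hsum' : ∑ i ∈ range m.length, l.getD i 0 = ∑ i ∈ range m.length, m.getD i 0 := by
    have := hsum
    rw [hid M, hid N, hf, hg] at this
    exact this
  have key := sq_sum_le m.length (fun i => l.getD i 0) (fun i => m.getD i 0)
    (fun i hi => getD_mono l hlp i (i + 1) (by omega) (by omega)) hD hsum'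
  have e1 : sq M = ∑ i ∈ range m.length, (l.getD i 0) ^ 2 := hf _
  have e2 : sq N = ∑ i ∈ range m.length, (m.getD i 0) ^ 2 := hg _
  rw [← e1, ← e2] at key
  have hnn : 0 ≤ ∑ i ∈ range m.length, (m.getD i 0 - l.getD i 0) ^ 2 :=
    sum_nonneg fun i _ => sq_nonneg _
  refine ⟨by linarith, fun hle => ?_⟩
  have h0 : ∑ i ∈ range m.length, (m.getD i 0 - l.getD i 0) ^ 2 = 0 := by linarith
  rw [sum_eq_zero_iff_of_nonneg fun i _ => sq_nonneg _] at h0
  have hlm : l = m := by
    apply List.ext_getElem hlen
    intro i h1 h2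
    have := h0 i (mem_range.mpr h2)
    have h3 : m.getD i 0 - l.getD i 0 = 0 := by
      simpa using this
    rw [List.getD_eq_getElem _ _ h1, List.getD_eq_getElem _ _ h2] at h3
    linarith
  rw [← hlM, ← hmN, hlm]

/-- the sum of the squares of all differences -/
theorem sq_diff (M : Multiset ℝ) :
    sq ((M ×ˢ M).map fun x => x.1 - x.2) = 2 * (Multiset.card M * sq M) - 2 * M.sum ^ 2 := by
  have h1 : ∀ N : Multiset ℝ, (((M ×ˢ N).map fun x => x.1 - x.2).map fun x => x ^ 2).sum =
      Multiset.card N * sq M + Multiset.card M * sq N - 2 * (M.sum * N.sum) := by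
    intro N
    induction M using Multiset.induction_on with
    | empty => simp [sq]
    | cons a M ih =>
      have h2 : ((((a ::ₘ M) ×ˢ N).map fun x => x.1 - x.2).map fun x => x ^ 2).sum =
          (N.map fun y => (a - y) ^ 2).sum + (((M ×ˢ N).map fun x => x.1 - x.2).map fun x => x ^ 2).sum := by
        rw [Multiset.cons_product, Multiset.map_add, Multiset.map_add, Multiset.sum_add, Multiset.map_map,
          Multiset.map_map]
        rfl
      have h3 : (N.map fun y => (a - y) ^ 2).sum = Multiset.card N * a ^ 2 + sq N - 2 * (a * N.sum) := by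
        clear ih h2
        induction N using Multiset.induction_on with
        | empty => simp [sq]
        | cons b N ih =>
          rw [Multiset.map_cons, Multiset.sum_cons, ih, Multiset.card_cons]
          simp only [sq, Multiset.map_cons, Multiset.sum_cons]
          push_cast
          ring
      rw [h2, h3, ih, Multiset.card_cons]
      simp only [sq, Multiset.map_cons, Multiset.sum_cons]
      push_cast
      ring
  have := h1 M
  unfold sq at this ⊢
  rw [this]
  ring

end Pool.Agent.TH119.Ord
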