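import Pool.Agent.W528.Ord.Newton
import Pool.Agent.W528.Ord.MotDefs
import Pool.Agent.W528.Ord.Tau
import Pool.Agent.TH119.Ord.Maj

/-! Slopes of integral polynomials whose Newton polygon lies above a given Hodge polygon. -/

set_option autoImplicit false

namespace Pool.Agent.TH119.Ord

open Polynomial Pool.Agent.W528.Ord

/-- The polynomial `F` over `ℤ` is monic of degree `l.length`, and its Newton polygon for the prime number
`p` lies on or above the polygon with the slopes `l` (a list of natural numbers in increasing order): the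
coefficient of `X ^ (n - k)` is divisible by `p` to the power of the sum of the `k` smallest slopes.
Moreover the end points are the same: `F 0 = ± p ^ (l 0 + l 1 + ...)`. -/
structure AboveHodge (p : ℕ) (F : ℤ[X]) (l : List ℕ) : Prop where
  sorted : l.Pairwise (· ≤ ·)
  monic : F.Monic
  natDegree : F.natDegree = l.length
  dvd : ∀ k ≤ l.length, ((p : ℤ) ^ (l.take k).sum) ∣ F.coeff (l.length - k)
  end_eq : (F.coeff 0).natAbs = p ^ l.sum

variable {p : ℕ} [hp : Fact p.Prime]

/-- the slope of a `p`-adic number, normalised by `slope p = 1` -/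
noncomputable def sl (y : PadicAlgCl p) : ℝ := Real.logb (1 / (p : ℝ)) ‖y‖

theorem q_pos : (0 : ℝ) < 1 / (p : ℝ) := by
  have : (0 : ℝ) < p := by exact_mod_cast hp.out.pos
  positivity

theorem q_lt_one : 1 / (p : ℝ) < 1 := by
  have h : (1 : ℝ) < p := by exact_mod_cast hp.out.one_lt
  rw [div_lt_one (by linarith)]
  exact h

theorem norm_eq_rpow (y : PadicAlgCl p) (hy : y ≠ 0) : ‖y‖ = (1 / (p : ℝ)) ^ sl y := by
  rw [sl, Real.rpow_logb q_pos q_lt_one.ne (norm_pos_iff.mpr hy)]

theorem sl_mul (x y : PadicAlgCl p) (hx : x ≠ 0) (hy : y ≠ 0) : sl (x * y) = sl x + sl y := by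
  rw [sl, norm_mul, Real.logb_mul (norm_ne_zero_iff.mpr hx) (norm_ne_zero_iff.mpr hy)]
  rfl

theorem sl_inv (x : PadicAlgCl p) : sl x⁻¹ = - sl x := by
  rw [sl, norm_inv, Real.logb_inv]
  rfl

theorem sl_one : sl (1 : PadicAlgCl p) = 0 := by
  rw [sl, norm_one, Real.logb_one]

theorem sl_p : sl (p : PadicAlgCl p) = 1 := by
  rw [sl, norm_p, Real.logb_self_eq_one_iff]
  exact ⟨q_pos.ne', q_lt_one.ne, by have := q_pos (p := p); linarith⟩

theorem sl_zpow (x : PadicAlgCl p) (c : ℤ) : sl (x ^ c) = c * sl x := by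
  rw [sl, sl, norm_zpow, Real.logb, Real.logb, Real.log_zpow, mul_div_assoc]

theorem prod_max_rpow {q : ℝ} (hq0 : 0 < q) (hq1 : q < 1) (t : ℝ) (M : Multiset ℝ) :
    ((M.map fun s => q ^ s).map fun x => max (q ^ t) x).prod = q ^ (M.map fun s => min t s).sum := by
  induction M using Multiset.induction_on with
  | empty => simp
  | cons a M ih =>
    rw [Multiset.map_cons, Multiset.map_cons, Multiset.prod_cons, ih, Multiset.map_cons,
      Multiset.sum_cons, Real.rpow_add hq0]
    congr 1
    rcases le_total t a with h | h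
    · rw [min_eq_left h, max_eq_left (Real.rpow_le_rpow_of_exponent_ge hq0 hq1.le h)]
    · rw [min_eq_right h, max_eq_right (Real.rpow_le_rpow_of_exponent_ge hq0 hq1.le h)]

theorem list_prod_max (q : ℝ) (r : ℝ) (l : List ℕ) :
    (l.map fun a => max r (q ^ a)).prod = ((l.map fun a : ℕ => ((a : ℝ)) : List ℝ).map
      fun s => max r (q ^ s)).prod := by
  rw [List.map_map]
  congr 1
  apply List.map_congr_left
  intro a _
  simp only [Function.comp, Real.rpow_natCast]

theorem coeff_norm_le (F : ℤ[X]) (l : List ℕ) (h : AboveHodge p F l) (k : ℕ) (hk : k ≤ l.length) :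
    ‖(F.map (Int.castRingHom (PadicAlgCl p))).coeff (l.length - k)‖ ≤ (1 / (p : ℝ)) ^ (l.take k).sum := by
  obtain ⟨c, hc⟩ := h.dvd k hk
  rw [coeff_map, hc, map_mul, map_pow, norm_mul, norm_pow]
  have h1 : ‖(Int.castRingHom (PadicAlgCl p)) (p : ℤ)‖ = 1 / (p : ℝ) := by
    rw [← norm_p (p := p), eq_intCast, Int.cast_natCast]
  have h2 : ‖(Int.castRingHom (PadicAlgCl p)) c‖ ≤ 1 := by
    rw [eq_intCast]
    exact IsUltrametricDist.norm_intCast_le_one _ c
  rw [h1]
  calc (1 / (p : ℝ)) ^ (l.take k).sum * ‖(Int.castRingHom (PadicAlgCl p)) c‖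
      ≤ (1 / (p : ℝ)) ^ (l.take k).sum * 1 := mul_le_mul_of_nonneg_left h2 (by
        have := q_pos (p := p); positivity)
    _ = _ := mul_one _

theorem coeff_zero_norm (F : ℤ[X]) (l : List ℕ) (h : AboveHodge p F l) :
    ‖(F.map (Int.castRingHom (PadicAlgCl p))).coeff 0‖ = (1 / (p : ℝ)) ^ l.sum := by
  rw [coeff_map]
  have h1 : ‖((F.coeff 0 : ℤ) : PadicAlgCl p)‖ = ‖(((F.coeff 0).natAbs : ℕ) : PadicAlgCl p)‖ := by
    rcases Int.natAbs_eq (F.coeff 0) with h | h
    · conv_lhs => rw [h]
      simp
    · conv_lhs => rw [h]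
      rw [Int.cast_neg, norm_neg]
      simp
  rw [eq_intCast, h1, h.end_eq, Nat.cast_pow, norm_pow, norm_p]

/-- the slopes of the roots -/
noncomputable def slopesOf (p : ℕ) [Fact p.Prime] (F : ℤ[X]) : Multiset ℝ :=
  (F.map (Int.castRingHom (PadicAlgCl p))).roots.map sl

theorem roots_ne_zero (F : ℤ[X]) (l : List ℕ) (h : AboveHodge p F l) (y : PadicAlgCl p)
    (hy : y ∈ (F.map (Int.castRingHom (PadicAlgCl p))).roots) : y ≠ 0 := by
  rintro rfl
  have h1 := isRoot_of_mem_roots hy
  rw [IsRoot, ← coeff_zero_eq_eval_zero] at h1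
  have h2 := coeff_zero_norm F l h
  rw [h1, norm_zero] at h2
  exact (pow_pos (q_pos (p := p)) _).ne h2

theorem hinge (F : ℤ[X]) (l : List ℕ) (h : AboveHodge p F l) (t : ℝ) :
    (((l : Multiset ℕ).map fun a : ℕ => (a : ℝ)).map fun x => min t x).sum ≤
      ((slopesOf p F).map fun x => min t x).sum := by
  set q : ℝ := 1 / (p : ℝ) with hq
  have hq0 : 0 < q := q_pos
  have hq1 : q < 1 := q_lt_one
  set r : ℝ := q ^ t with hr
  have hr0 : 0 < r := Real.rpow_pos_of_pos hq0 _
  set f := F.map (Int.castRingHom (PadicAlgCl p)) with hf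
  have hm : f.Monic := h.monic.map _
  have hn : f.natDegree = l.length := by
    rw [hf, h.monic.natDegree_map, h.natDegree]
  have hs : f.Splits := IsAlgClosed.splits _
  set v : AbsoluteValue (PadicAlgCl p) ℝ := NormedField.toAbsoluteValue (PadicAlgCl p) with hv
  have hvn : ∀ x : PadicAlgCl p, v x = ‖x‖ := fun x => rfl
  have hna : IsNonarchimedean v := fun x y => IsUltrametricDist.norm_add_le_max x y
  have hprod : f = (f.roots.map fun y => X - C y).prod := by
    conv_lhs => rw [hs.eq_prod_roots, hm.leadingCoeff, C_1, one_mul]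
  have h1 := Pool.Agent.W518.DN.gn_linear (v := v) hna hr0 f.roots
  rw [← hprod] at h1
  have h2 : f.gaussNorm v r ≤ (l.map fun a => max r (q ^ a)).prod := by
    obtain ⟨i, hi⟩ := exists_eq_gaussNorm v r f
    rw [hi, hvn]
    by_cases hil : i ≤ l.length
    · have h3 := coeff_norm_le F l h (l.length - i) (by omega)
      rw [show l.length - (l.length - i) = i by omega] at h3
      have h5 : (l.map fun a => max r (q ^ a)).prod = ((l.take (l.length - i)).map fun a => max r (q ^ a)).prod *
          ((l.drop (l.length - i)).map fun a => max r (q ^ a)).prod := by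
        rw [← List.prod_append, ← List.map_append, List.take_append_drop]
      rw [h5]
      have h6 := prod_max_ge q r hq0 hr0 (l.take (l.length - i))
      have h7 := prod_max_ge q r hq0 hr0 (l.drop (l.length - i))
      have h8 : (l.drop (l.length - i)).length = i := by
        rw [List.length_drop]; omega
      rw [h8] at h7
      exact mul_le_mul (h3.trans h6.1) h7.2.1 (by positivity) h6.2.2.le
    · have : f.coeff i = 0 := coeff_eq_zero_of_natDegree_lt (by omega)
      rw [this, norm_zero, zero_mul]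
      exact (prod_max_ge q r hq0 hr0 l).2.2.le
  rw [h1] at h2
  have h3 : (f.roots.map fun y => max r (v y)).prod =
      q ^ ((slopesOf p F).map fun x => min t x).sum := by
    rw [← prod_max_rpow hq0 hq1 t, slopesOf, Multiset.map_map, Multiset.map_map]
    congr 1
    apply Multiset.map_congr rfl
    intro y hy
    simp only [Function.comp, hvn]
    rw [← hr, hq, ← norm_eq_rpow y (roots_ne_zero F l h y hy)]
  have h4 : (l.map fun a => max r (q ^ a)).prod =
      q ^ (((l : Multiset ℕ).map fun a : ℕ => (a : ℝ)).map fun x => min t x).sum := by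
    rw [← prod_max_rpow hq0 hq1 t, list_prod_max]
    simp only [Multiset.map_coe, List.map_map, Multiset.prod_coe]
    rfl
  rw [h3, h4] at h2
  by_contra hcon
  push Not at hcon
  exact absurd h2 (not_le.mpr (Real.rpow_lt_rpow_of_exponent_gt hq0 hq1 hcon))

theorem card_slopes (F : ℤ[X]) (l : List ℕ) (h : AboveHodge p F l) :
    Multiset.card (slopesOf p F) = l.length := by
  rw [slopesOf, Multiset.card_map, splits_iff_card_roots.mp (IsAlgClosed.splits _), h.monic.natDegree_map,
    h.natDegree]

theorem prod_norm_rpow (M : Multiset (PadicAlgCl p)) (hM : ∀ y ∈ M, y ≠ 0) :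
    ‖M.prod‖ = (1 / (p : ℝ)) ^ (M.map sl).sum := by
  induction M using Multiset.induction_on with
  | empty => simp
  | cons a M ih =>
    rw [Multiset.prod_cons, norm_mul, ih (fun y hy => hM y (Multiset.mem_cons_of_mem hy)), Multiset.map_cons,
      Multiset.sum_cons, Real.rpow_add q_pos, ← norm_eq_rpow a (hM a (Multiset.mem_cons_self a M))]

theorem sum_slopes (F : ℤ[X]) (l : List ℕ) (h : AboveHodge p F l) :
    (slopesOf p F).sum = ((l : Multiset ℕ).map fun a : ℕ => (a : ℝ)).sum := by
  have h1 := coeff_zero_norm F l h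
  have h2 : ‖(F.map (Int.castRingHom (PadicAlgCl p))).coeff 0‖ =
      ‖(F.map (Int.castRingHom (PadicAlgCl p))).roots.prod‖ := by
    have hs : (F.map (Int.castRingHom (PadicAlgCl p))).Splits := IsAlgClosed.splits _
    rw [hs.coeff_zero_eq_leadingCoeff_mul_prod_roots, (h.monic.map _).leadingCoeff]
    simp
  rw [h2, prod_norm_rpow _ (fun y hy => roots_ne_zero F l h y hy)] at h1
  have h3 : (1 / (p : ℝ)) ^ l.sum = (1 / (p : ℝ)) ^ (((l : Multiset ℕ).map fun a : ℕ => (a : ℝ)).sum) := by
    rw [← Real.rpow_natCast]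
    congr 1
    rw [Multiset.map_coe, Multiset.sum_coe, Nat.cast_list_sum]
  rw [h3] at h1
  exact Real.rpow_right_inj q_pos q_lt_one.ne |>.mp h1 

/-- **Newton above Hodge**: the sum of the squares of the slopes is at most the sum of the squares of the
Hodge slopes, with equality only if the slopes are the same. -/
theorem sq_slopes (F : ℤ[X]) (l : List ℕ) (h : AboveHodge p F l) :
    sq (slopesOf p F) ≤ sq ((l : Multiset ℕ).map fun a : ℕ => (a : ℝ)) ∧
    (sq ((l : Multiset ℕ).map fun a : ℕ => (a : ℝ)) ≤ sq (slopesOf p F) →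
      slopesOf p F = (l : Multiset ℕ).map fun a : ℕ => (a : ℝ)) :=
  maj _ _ (by rw [card_slopes F l h]; simp) (hinge F l h) (sum_slopes F l h)

theorem newton_of_slopes (F : ℤ[X]) (l : List ℕ) (h : AboveHodge p F l)
    (hs : slopesOf p F = (l : Multiset ℕ).map fun a : ℕ => (a : ℝ)) : NewtonSlopes p F (l : Multiset ℕ) := by
  refine ⟨hp, ?_⟩
  have h1 : (F.map (Int.castRingHom (PadicAlgCl p))).roots.map (fun y => ‖y‖) =
      (slopesOf p F).map fun s => (1 / (p : ℝ)) ^ s := by
    rw [slopesOf, Multiset.map_map]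
    apply Multiset.map_congr rfl
    intro y hy
    exact norm_eq_rpow y (roots_ne_zero F l h y hy)
  rw [h1, hs, Multiset.map_map]
  apply Multiset.map_congr rfl
  intro a _
  simp only [Function.comp, Real.rpow_natCast]

theorem slopes_of_newton (G : ℤ[X]) (H : Multiset ℕ) (h : NewtonSlopes p G H) :
    slopesOf p G = H.map fun a : ℕ => (a : ℝ) := by
  obtain ⟨_, h⟩ := h
  have h1 : slopesOf p G = ((G.map (Int.castRingHom (PadicAlgCl p))).roots.map fun y => ‖y‖).map
      (Real.logb (1 / (p : ℝ))) := by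
    rw [slopesOf, Multiset.map_map]
    rfl
  rw [h1, h, Multiset.map_map]
  apply Multiset.map_congr rfl
  intro a _
  simp only [Function.comp]
  rw [← Real.rpow_natCast, Real.logb_rpow q_pos q_lt_one.ne]

end Pool.Agent.TH119.Ord
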