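import Pool.Agent.TH119.Ord.Slopes

/-! Tensor constructions: Frobenius eigenvalues and slopes. -/

set_option autoImplicit false

namespace Pool.Agent.TH119.Ord

open Polynomial Pool.Agent.W528.Ord

/-- all products of `a` elements of the multiset `B`, with multiplicity: the eigenvalues on the `a`-th
tensor power -/
def mulPow {M : Type*} [CommMonoid M] (B : Multiset M) : ℕ → Multiset M
  | 0 => {1}
  | a + 1 => (B ×ˢ mulPow B a).map fun x => x.1 * x.2

/-- all sums of `a` elements of the multiset `H`, with multiplicity: the slopes of the `a`-th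
tensor power -/
def addPow {M : Type*} [AddCommMonoid M] (H : Multiset M) : ℕ → Multiset M
  | 0 => {0}
  | a + 1 => (H ×ˢ addPow H a).map fun x => x.1 + x.2

/-- The eigenvalues of Frobenius on the direct sum of the motives `A ^ {⊗ a} ⊗ (A ^ ∨) ^ {⊗ b} (-c)`, for
`(a, b, c)` in the list `T`, if `B` are the eigenvalues on `A` and `q` the number of elements of the
residue field. -/
def eigTensor {L : Type*} [Field L] (q : L) (B : Multiset L) (T : List (ℕ × ℕ × ℤ)) : Multiset L :=
  (T.map fun t => (mulPow B t.1 ×ˢ mulPow B t.2.1).map fun x => x.1 * x.2⁻¹ * q ^ t.2.2).sum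

/-- The slopes of the direct sum of the motives `A ^ {⊗ a} ⊗ (A ^ ∨) ^ {⊗ b} (-c)`, for `(a, b, c)` in the
list `T`, if `H` are the slopes of `A`. -/
def slopeTensor {R : Type*} [Ring R] (H : Multiset R) (T : List (ℕ × ℕ × ℤ)) : Multiset R :=
  (T.map fun t => (addPow H t.1 ×ˢ addPow H t.2.1).map fun x => x.1 - x.2 + (t.2.2 : R)).sum

section maps

variable {p : ℕ} [hp : Fact p.Prime] {L : Type} [Field L]

theorem mulPow_ne_zero (B : Multiset L) (hB : ∀ y ∈ B, y ≠ 0) (a : ℕ) : ∀ y ∈ mulPow B a, y ≠ 0 := by
  induction a with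
  | zero =>
    intro y hy
    rw [mulPow, Multiset.mem_singleton] at hy
    rw [hy]
    exact one_ne_zero
  | succ a ih =>
    intro y hy
    rw [mulPow, Multiset.mem_map] at hy
    obtain ⟨x, hx, rfl⟩ := hy
    rw [Multiset.mem_product] at hx
    exact mul_ne_zero (hB _ hx.1) (ih _ hx.2)

theorem map_product_map {α β γ δ : Type*} (s : Multiset α) (t : Multiset β) (f : α → γ) (g : β → δ) :
    (s.map f ×ˢ t.map g) = (s ×ˢ t).map fun x => (f x.1, g x.2) := by
  induction s using Multiset.induction_on with
  | empty => simp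
  | cons a s ih =>
    rw [Multiset.map_cons, Multiset.cons_product, ih, Multiset.cons_product, Multiset.map_add,
      Multiset.map_map, Multiset.map_map]
    rfl

variable (j : L →+* PadicAlgCl p)

theorem map_mulPow (B : Multiset L) (hB : ∀ y ∈ B, y ≠ 0) (a : ℕ) :
    (mulPow B a).map (fun y => sl (j y)) = addPow (B.map fun y => sl (j y)) a := by
  induction a with
  | zero => simp [mulPow, addPow, sl_one]
  | succ a ih =>
    rw [mulPow, addPow, Multiset.map_map, ← ih, map_product_map, Multiset.map_map]
    apply Multiset.map_congr rfl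
    intro x hx
    rw [Multiset.mem_product] at hx
    simp only [Function.comp]
    rw [map_mul, sl_mul _ _ ((map_ne_zero j).mpr (hB _ hx.1))
      ((map_ne_zero j).mpr (mulPow_ne_zero B hB a _ hx.2))]

theorem map_list_sum {α β : Type*} (f : α → β) (l : List (Multiset α)) :
    l.sum.map f = (l.map fun M => M.map f).sum := by
  induction l with
  | nil => simp
  | cons a l ih => rw [List.sum_cons, Multiset.map_add, ih, List.map_cons, List.sum_cons]

theorem map_eigTensor (B : Multiset L) (hB : ∀ y ∈ B, y ≠ 0) (T : List (ℕ × ℕ × ℤ)) :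
    (eigTensor (p : L) B T).map (fun y => sl (j y)) =
      slopeTensor (B.map fun y => sl (j y)) T := by
  rw [eigTensor, slopeTensor, map_list_sum, List.map_map]
  congr 1
  apply List.map_congr_left
  intro t _
  simp only [Function.comp]
  rw [Multiset.map_map, ← map_mulPow j B hB, ← map_mulPow j B hB, map_product_map, Multiset.map_map]
  apply Multiset.map_congr rfl
  intro x hx
  rw [Multiset.mem_product] at hx
  have h1 := (map_ne_zero j).mpr (mulPow_ne_zero B hB _ _ hx.1)
  have h2 := (map_ne_zero j).mpr (mulPow_ne_zero B hB _ _ hx.2)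
  have hp0 : (p : PadicAlgCl p) ≠ 0 := by
    rw [← norm_ne_zero_iff, norm_p]
    exact q_pos.ne'
  simp only [Function.comp]
  rw [map_mul, map_mul, map_inv₀, map_zpow₀, map_natCast, sl_mul _ _ (mul_ne_zero h1 (inv_ne_zero h2))
    (zpow_ne_zero _ hp0), sl_mul _ _ h1 (inv_ne_zero h2), sl_inv, sl_zpow, sl_p, mul_one, ← sub_eq_add_neg]

theorem cast_addPow {R R' : Type*} [Ring R] [Ring R'] (f : R →+* R') (H : Multiset R) (a : ℕ) :
    (addPow H a).map f = addPow (H.map f) a := by
  induction a with
  | zero => simp [addPow]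
  | succ a ih =>
    rw [addPow, addPow, Multiset.map_map, ← ih, map_product_map, Multiset.map_map]
    apply Multiset.map_congr rfl
    intro x _
    simp only [Function.comp]
    rw [map_add]

theorem cast_slopeTensor {R R' : Type*} [Ring R] [Ring R'] (f : R →+* R') (H : Multiset R)
    (T : List (ℕ × ℕ × ℤ)) : (slopeTensor H T).map f = slopeTensor (H.map f) T := by
  rw [slopeTensor, slopeTensor, map_list_sum, List.map_map]
  congr 1
  apply List.map_congr_left
  intro t _
  simp only [Function.comp]
  rw [Multiset.map_map, ← cast_addPow, ← cast_addPow, map_product_map, Multiset.map_map]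
  apply Multiset.map_congr rfl
  intro x _
  simp only [Function.comp]
  rw [map_add, map_sub, map_intCast]

end maps

/-- the field of algebraic numbers -/
abbrev Qbar : Type := AlgebraicClosure ℚ

/-- the Frobenius eigenvalues: the roots of the polynomial `F` in the field of algebraic numbers -/
noncomputable def eig (F : ℤ[X]) : Multiset Qbar := (F.map (Int.castRingHom Qbar)).roots

section place

variable {p : ℕ} [hp : Fact p.Prime]

theorem eig_map (j : Qbar →+* PadicAlgCl p) (F : ℤ[X]) :
    (eig F).map (fun y => sl (j y)) = slopesOf p F := by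
  have : (F.map (Int.castRingHom (PadicAlgCl p))).roots = (eig F).map j := by
    rw [eig, ← Splits.roots_map (IsAlgClosed.splits _), Polynomial.map_map]
    congr 2
    exact RingHom.ext_int _ _
  rw [slopesOf, this, Multiset.map_map]
  rfl

theorem eig_ne_zero (F : ℤ[X]) (l : List ℕ) (h : AboveHodge p F l) : ∀ y ∈ eig F, y ≠ 0 := by
  rintro _ hy rfl
  have h1 := isRoot_of_mem_roots hy
  rw [IsRoot, ← coeff_zero_eq_eval_zero, coeff_map, eq_intCast, Int.cast_eq_zero] at h1
  have h2 := h.end_eq
  rw [h1, Int.natAbs_zero] at h2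
  exact (pow_pos hp.out.pos _).ne h2

/-- **The key step at one place.**  If `End(R) ⊕ C(-c₀) = T(A)` and the Newton polygon of `A` is its Hodge
polygon, the Newton polygon of `R` is its Hodge polygon. -/
theorem key (P C G : ℤ[X]) (h hC : List ℕ) (H : Multiset ℕ) (c₀ : ℤ) (T : List (ℕ × ℕ × ℤ))
    (hP : AboveHodge p P h) (hCC : AboveHodge p C hC) (hG0 : G.coeff 0 ≠ 0)
    (hfrob : ((eig P ×ˢ eig P).map fun x => x.1 * x.2⁻¹) + (eig C).map (fun y => y * (p : Qbar) ^ c₀) =
      eigTensor (p : Qbar) (eig G) T)
    (hhodge : ((((h : Multiset ℕ).map fun a : ℕ => (a : ℤ)) ×ˢ ((h : Multiset ℕ).map fun a : ℕ => (a : ℤ))).map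
      fun x => x.1 - x.2) + (hC : Multiset ℕ).map (fun a : ℕ => (a : ℤ) + c₀) =
      slopeTensor (H.map fun a : ℕ => (a : ℤ)) T)
    (hA : NewtonSlopes p G H) : NewtonSlopes p P (h : Multiset ℕ) := by
  haveI : Algebra.IsAlgebraic ℚ (AlgebraicClosure ℚ) := AlgebraicClosure.isAlgebraic ℚ
  let j : Qbar →+* PadicAlgCl p :=
    ((IsAlgClosed.lift : AlgebraicClosure ℚ →ₐ[ℚ] PadicAlgCl p) : AlgebraicClosure ℚ →+* PadicAlgCl p)
  have hGne : ∀ y ∈ eig G, y ≠ 0 := by
    rintro _ hy rfl
    have h1 := isRoot_of_mem_roots hy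
    rw [IsRoot, ← coeff_zero_eq_eval_zero, coeff_map, eq_intCast, Int.cast_eq_zero] at h1
    exact hG0 h1
  have hPne := eig_ne_zero P h hP
  have hCne := eig_ne_zero C hC hCC
  set s := slopesOf p P with hs
  set u := slopesOf p C with hu
  -- slopes of both sides
  have e1 : ((s ×ˢ s).map fun x => x.1 - x.2) + u.map (fun y => y + (c₀ : ℝ)) =
      slopeTensor (slopesOf p G) T := by
    have := congrArg (Multiset.map fun y => sl (j y)) hfrob
    rw [map_eigTensor j _ hGne, eig_map, Multiset.map_add, Multiset.map_map, Multiset.map_map] at this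
    rw [← this]
    congr 1
    · rw [hs, ← eig_map j, map_product_map, Multiset.map_map]
      apply Multiset.map_congr rfl
      intro x hx
      rw [Multiset.mem_product] at hx
      simp only [Function.comp]
      rw [map_mul, map_inv₀, sl_mul _ _ ((map_ne_zero j).mpr (hPne _ hx.1))
        (inv_ne_zero ((map_ne_zero j).mpr (hPne _ hx.2))), sl_inv, sub_eq_add_neg]
    · rw [hu, ← eig_map j, Multiset.map_map]
      apply Multiset.map_congr rfl
      intro y hy
      have hp0 : (p : PadicAlgCl p) ≠ 0 := by
        rw [← norm_ne_zero_iff, norm_p]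
        exact q_pos.ne'
      simp only [Function.comp]
      rw [map_mul, map_zpow₀, map_natCast, sl_mul _ _ ((map_ne_zero j).mpr (hCne _ hy))
        (zpow_ne_zero _ hp0), sl_zpow, sl_p, mul_one]
  have e2 := congrArg (Multiset.map (Int.castRingHom ℝ)) hhodge
  set sh : Multiset ℝ := (h : Multiset ℕ).map fun a : ℕ => (a : ℝ) with hsh
  set uh : Multiset ℝ := (hC : Multiset ℕ).map fun a : ℕ => (a : ℝ) with huh
  have e3 : ((sh ×ˢ sh).map fun x => x.1 - x.2) + uh.map (fun y => y + (c₀ : ℝ)) =
      slopeTensor (H.map fun a : ℕ => (a : ℝ)) T := by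
    rw [cast_slopeTensor, Multiset.map_add, Multiset.map_map, Multiset.map_map] at e2
    have h3 : (H.map fun a : ℕ => (a : ℤ)).map (Int.castRingHom ℝ) = H.map fun a : ℕ => (a : ℝ) := by
      rw [Multiset.map_map]
      apply Multiset.map_congr rfl
      intro a _
      simp
    rw [h3] at e2
    rw [← e2]
    congr 1
    · rw [hsh, map_product_map, map_product_map, Multiset.map_map, Multiset.map_map]
      apply Multiset.map_congr rfl
      intro x _
      simp
    · rw [huh, Multiset.map_map]
      apply Multiset.map_congr rfl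
      intro x _
      simp
  rw [slopes_of_newton G H hA, ← e3] at e1
  have e4 := congrArg sq e1
  have sq_add : ∀ M N : Multiset ℝ, sq (M + N) = sq M + sq N := by
    intro M N
    simp [sq]
  have sq_shift : ∀ (M : Multiset ℝ) (c : ℝ), sq (M.map fun y => y + c) =
      sq M + 2 * c * M.sum + Multiset.card M * c ^ 2 := by
    intro M c
    induction M using Multiset.induction_on with
    | empty => simp [sq]
    | cons a M ih =>
      simp only [sq, Multiset.map_cons, Multiset.sum_cons, Multiset.card_cons] at ih ⊢
      rw [ih]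
      push_cast
      ring
  rw [sq_add, sq_add, sq_shift, sq_shift, sq_diff, sq_diff] at e4
  have c1 : Multiset.card s = Multiset.card sh := by
    rw [hs, card_slopes P h hP, hsh]; simp
  have c2 : Multiset.card u = Multiset.card uh := by
    rw [hu, card_slopes C hC hCC, huh]; simp
  have s1 : s.sum = sh.sum := sum_slopes P h hP
  have s2 : u.sum = uh.sum := sum_slopes C hC hCC
  have m1 := sq_slopes P h hP
  have m2 := (sq_slopes C hC hCC).1
  rw [c1, c2, s1, s2] at e4
  rcases Nat.eq_zero_or_pos h.length with hz | hpos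
  · -- rank zero
    apply newton_of_slopes P h hP
    have h0 : h = [] := List.length_eq_zero_iff.mp hz
    have hc0 : Multiset.card (slopesOf p P) = 0 := by rw [card_slopes P h hP, hz]
    rw [Multiset.card_eq_zero.mp hc0, h0]
    rfl
  · apply newton_of_slopes P h hP
    apply m1.2
    have hc : (0 : ℝ) < (Multiset.card sh : ℝ) := by
      rw [hsh]
      simpa using hpos
    have m2' : sq u ≤ sq uh := m2
    have e5 : (Multiset.card sh : ℝ) * sq sh ≤ (Multiset.card sh : ℝ) * sq s := by
      linarith
    exact le_of_mul_le_mul_left e5 hc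

end place

end Pool.Agent.TH119.Ord
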